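import Pool.Agent.P8H70.EC.One

/-!
# Energy equality from classes of single components of the velocity and the vorticity

Let `u` be a weak solution of the Navier-Stokes equations in an arbitrary open set `Ω ⊆ ℝ³` (no
energy inequality is assumed), `ω = curl u`. By the classical theorem of Lions the energy equality
holds if `u ∈ L⁴(0,T; L⁴(Ω))`; more generally, it holds if `ω ∈ L^α L^β` and `u ∈ L^a L^b` with
`1/α + 2/a ≤ 1`, `1/β + 2/b ≤ 1` (`α = β = 2` is always possible). We show that only the products of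
*different* components of the velocity matter, each one together with the *remaining* component of
the vorticity, and that different classes may be used for the three factors:

1. The energy equality holds if for `k = 1, 2, 3` (indices modulo 3) there are exponents with
   `ω_k ∈ L^α L^β`, `u_{k+1} ∈ L^a L^b`, `u_{k+2} ∈ L^c L^d` and
   `1/α + 1/a + 1/c ≤ 1`, `1/β + 1/b + 1/d ≤ 1` (with equality in the second inequality if `Ω` has
   infinite measure). For instance (`Ω` of finite measure) if two components of the velocity are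
   in `L^a L^b` and the third one in `L^c L^d`, where `a, b ≥ 4` and `1/a + 1/c ≤ 1/2`,
   `1/b + 1/d ≤ 1/2`: the third component may be outside of `L⁴ L⁴`.
2. The energy equality holds if for one `k` the component `u_k` is in a Serrin class,
   `2/a + 3/b = 1`, and the component `ω_k` is in `L^α L^β`, `2/α + 3/β = 2`. No condition is
   imposed on the other components. (Part 1 with the classes `L^c L^d`, `2/c + 3/d = 3/2`, to which
   every weak solution belongs.)
3. Direction fields: there are unit vectors `d(t,x)` with `|d(s,x) - d(t,x)| ≤ K m(s,t)`, for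
   `m(s,t) = |s - t|^{2/p - 1/2} + ‖u(s)‖₄^{p/2 - 2} + ‖u(t)‖₄^{p/2 - 2}` and `u ∈ L^p L⁴`,
   `8/3 ≤ p ≤ 4`, such that the gradient, the part of the velocity perpendicular to `d` and the
   velocity are in classes with admissible exponents. In the starting result `VelocityDirection` the
   perpendicular part was to be in a Serrin class.
4. All this follows from a bound of the triple products
   `ω(s,x)·(u(s,x) × u(t,x))` at two times by `K m(s,t) |∇u(s,x)| |u(s,x)| |u(t,x)|` and a finite sum
   of products of a function of `(s,x)`, another one of `(s,x)` and one of `(t,x)` in classes with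
   admissible exponents.

Proof: by the identity of the starting library the trilinear form `b(u(s), u(s), u(t))` is up to sign
the integral of the triple product; Hölder's inequality and the inequality of the weighted means
bound it by `ψ(s) + ψ(t) + |s - t| ψ(s) ψ(t)` with an integrable function `ψ`, and the two-time
criterion of the starting library applies.
-/

set_option autoImplicit false

open MeasureTheory Set
open scoped InnerProductSpace ENNReal

namespace Pool.Agent.Results.MP_a38b17_an.ComponentClasses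

open H772R2.NS.Pub
open Pool.Agent.TH301.EQ (wedge perp modulus)

/-- `v ∈ L^a(0,T; L^b(Ω))`: `‖v(t)‖_{L^b(Ω)} ≤ B(t)` for almost every `t`, where
`B ∈ L^a(0,T)`. -/
def Mixed {E : Type} [NormedAddCommGroup E] (Ω : Set R3) (T : ℝ) (a b : ℝ≥0∞)
    (v : ℝ → R3 → E) : Prop :=
  ∃ B : ℝ → ℝ, MemLp B a (volume.restrict (Ioo 0 T)) ∧
    ∀ᵐ t ∂(volume.restrict (Ioo 0 T)), AEStronglyMeasurable (v t) (volume.restrict Ω) ∧
      eLpNorm (v t) b (volume.restrict Ω) ≤ ENNReal.ofReal (B t)

/-- Admissible exponents of three classes `L^(a_m)(0,T; L^(b_m)(Ω))`: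
`1/a₀ + 1/a₁ + 1/a₂ ≤ 1` and `1/b₀ + 1/b₁ + 1/b₂ ≤ 1`, with equality in the second
inequality if the measure of `Ω` is infinite. -/
def Admissible (Ω : Set R3) (a₀ b₀ a₁ b₁ a₂ b₂ : ℝ≥0∞) : Prop :=
  1 / a₀ + 1 / a₁ + 1 / a₂ ≤ 1 ∧ 1 / b₀ + 1 / b₁ + 1 / b₂ ≤ 1 ∧
    (volume Ω = ⊤ → 1 / b₀ + 1 / b₁ + 1 / b₂ = 1)

/-- The matrix with the entry `1` in the place `(i, j)` and the entries `0` in all others. -/
noncomputable def unitMat (i j : Fin 3) : Mat :=
  (EuclideanSpace.single (i, j) (1 : ℝ) : EuclideanSpace ℝ (Fin 3 × Fin 3))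

/-- The component `k` (modulo 3) of the vorticity of a field with the Jacobian matrix `z`,
`∂_{k+1} u_{k+2} - ∂_{k+2} u_{k+1}`. -/
noncomputable def vort (k : Fin 3) (z : Mat) : ℝ :=
  ⟪unitMat (k + 2) (k + 1), z⟫_ℝ - ⟪unitMat (k + 1) (k + 2), z⟫_ℝ

/-- Let `u` be a weak solution of the Navier-Stokes equations in an open set `Ω ⊆ ℝ³` (no energy
inequality is assumed), with gradient `G` and force `f`. The energy defect vanishes on `[0,T]` in
each of the following cases:
1. for every `k` (modulo 3) there are admissible exponents for the component `k` of the vorticity and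
   the components `k + 1` and `k + 2` of the velocity;
2. for one `k` the component `k` of the velocity is in a Serrin class and the component `k` of the
   vorticity in `L^α(0,T; L^β(Ω))`, `2/α + 3/β = 2`;
3. direction fields with admissible exponents for the gradient, the perpendicular part of the
   velocity and the velocity;
4. the bound of the triple products at two times with factors in admissible classes. -/
theorem result {Ω : Set R3} (hΩ : IsOpen Ω) {ν T : ℝ} (hν : 0 < ν) (hT : 0 < T)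
    {u : ℝ → L2 Ω R3} {G : ℝ → L2 Ω Mat} {f : ℝ → L2 Ω R3} (hu : IsWeakSolution Ω ν T u G f) :
    ((∀ k : Fin 3, ∃ α β a b c d : ℝ≥0∞, Admissible Ω α β a b c d ∧
        Mixed Ω T α β (fun t x => vort k ((G t).fn x)) ∧
        Mixed Ω T a b (fun t x => ⟪e (k + 1), (u t).fn x⟫_ℝ) ∧
        Mixed Ω T c d (fun t x => ⟪e (k + 2), (u t).fn x⟫_ℝ)) →
      ∀ t ∈ Icc 0 T, energyDefect ν u G f t = 0) ∧
    (∀ (k : Fin 3) (a b α β : ℝ≥0∞), 2 / a + 3 / b = 1 → 2 / α + 3 / β = 2 →
      Mixed Ω T a b (fun t x => ⟪e k, (u t).fn x⟫_ℝ) →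
      Mixed Ω T α β (fun t x => vort k ((G t).fn x)) →
      ∀ t ∈ Icc 0 T, energyDefect ν u G f t = 0) ∧
    ∀ K p : ℝ, 0 ≤ K → 8 / 3 ≤ p → p ≤ 4 →
      (p ≠ 8 / 3 → ∫⁻ t in Ioo 0 T, norm4 (u t) ^ p ≠ ⊤) →
      (∀ d : ℝ → R3 → R3, (∀ t ∈ Ioo 0 T, ∀ x ∈ Ω, ‖d t x‖ = 1) →
        (∀ s ∈ Ioo 0 T, ∀ t ∈ Ioo 0 T, ∀ x ∈ Ω, ‖d s x - d t x‖ ≤ K * modulus p u s t) →
        ∀ α β a b c c' : ℝ≥0∞, Admissible Ω α β a b c c' →
        Mixed Ω T α β (fun t x => (G t).fn x) →
        Mixed Ω T a b (fun t x => perp (d t x) ((u t).fn x)) →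
        Mixed Ω T c c' (fun t x => (u t).fn x) →
        ∀ t ∈ Icc 0 T, energyDefect ν u G f t = 0) ∧
      (∀ (n : ℕ) (a b : Fin n → Fin 3 → ℝ≥0∞) (V : Fin n → Fin 3 → ℝ → R3 → ℝ),
        (∀ l, Admissible Ω (a l 0) (b l 0) (a l 1) (b l 1) (a l 2) (b l 2)) →
        (∀ l m, Mixed Ω T (a l m) (b l m) (V l m)) →
        (∀ᵐ t ∂(volume.restrict (Ioo 0 T)), ∀ᵐ s ∂(volume.restrict (Ioo 0 T)),
          ∀ᵐ x ∂(volume.restrict Ω), |⟪(G s).fn x, wedge ((u s).fn x) ((u t).fn x)⟫_ℝ|
            ≤ ‖(G s).fn x‖ * (K * modulus p u s t * (‖(u s).fn x‖ * ‖(u t).fn x‖))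
              + ∑ l, V l 0 s x * V l 1 s x * V l 2 t x) →
        ∀ t ∈ Icc 0 T, energyDefect ν u G f t = 0) :=
  ⟨fun h => Pool.Agent.P8H70.EC.pub_comp hΩ hν.le hT hu h,
    fun k _ _ _ _ h1 h2 h3 h4 => Pool.Agent.P8H70.EC.pub_one hΩ hν.le hT hu k h1 h2 h3 h4,
    fun _ _ hK hp hp4 h4 =>
      ⟨fun _ hd hd2 _ _ _ _ _ _ hadm h0 h1 h2 =>
        Pool.Agent.P8H70.EC.pub_dir_mixed hΩ hν.le hT hu hK hp hp4 h4 hd hd2 hadm h0 h1 h2,
      fun _ _ _ _ hab hV h =>
        Pool.Agent.P8H70.EC.pub_mixed hΩ hν.le hT hu hK hp hp4 h4 hab hV h⟩⟩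

end Pool.Agent.Results.MP_a38b17_an.ComponentClasses
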