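import Pool.Agent.P8H36.EE.Vec

/-!
# Energy equality from form bounded components of the velocity and the vorticity

Let `u` be a weak solution of the Navier-Stokes equations in an arbitrary open set `Ω ⊆ ℝ³` (no
energy inequality is assumed), `ω = curl u`. A potential `w(t,x) ≥ 0` is called form bounded if at
almost every time `t` and in every ball `U` of radius `ρ(t)` with center in `Ω`,
`∫ w φ² ≤ K ∫ |∇φ|² + B(t) ∫ φ²` for all test functions `φ` on `U ∩ Ω`, where `B + 1/ρ²` is an
integrable function of time and the constant `K` is arbitrary, in particular not small compared to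
the viscosity. Examples: `w = K / |x - y|² + B` for some point `y = y(t,U)`, in each ball; the
squares of the functions of all Serrin classes `L^a(0,T; L^b)`, `2/a + 3/b = 1`, and of
`L^∞(0,T; L^{3,∞})`.

The set `Ω` may be divided into four parts, arbitrary and independent of time; let `d(t,x)` be unit
vectors, `|d(s,x) - d(t,x)| ≤ K m(s,t)`, for
`m(s,t) = |s - t|^{2/p - 1/2} + ‖u(s)‖₄^{p/2 - 2} + ‖u(t)‖₄^{p/2 - 2}` and `u ∈ L^p L⁴`,
`8/3 ≤ p ≤ 4` (no condition for `p = 8/3`); no regularity of `d` in `x` is assumed. The energy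
equality holds if
* in the first part `u ∈ L⁴ L⁴`;
* in the second part the two components of the velocity perpendicular to `d` are form bounded,
  `|u - (u·d) d|² ≤ w`, there is no condition on the third component;
* in the third part the component of the velocity along `d` is form bounded, `(u·d)² ≤ w`, and
  so is the component of the vorticity along `d`, `|ω·d| ≤ w`; there is no condition on the other
  two components of the velocity;
* in the fourth part `|ω × u|² ≤ w g` with an integrable function `g`.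

For instance, the energy equality holds if `|u₃| ≤ K / |x - y(t)|` and `|ω₃| ≤ K / |x - y(t)|²`, with
an arbitrarily large constant `K`, where `y(t)` is an arbitrary moving point. All this follows from a
condition on the triple products of the vorticity at one time and the velocities at two times.

Proof: by the identity of the starting library, the trilinear form `b(u(s), u(s), u(t))` is up to
sign the integral of the triple product `ω(s,x)·(u(s,x) × u(t,x))`. By linear algebra this is at most
`|ω·d| |u(s)| |u(t)| + |ω| (|u(s)·d| |u(t)| + |u(t)·d| |u(s)|)`, `d = d(s,x)`. The form bounds,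
globalized by averaging over translates of a cutoff function, bound its integral by
`C (‖∇u(s)‖² + ‖∇u(t)‖²) + (B(s) + B(t)) C`; the constant is irrelevant, as the two-time criterion of
the starting library asks for `ψ(s) + ψ(t) + |s - t| ψ(s) ψ(t)` with an integrable function `ψ`.
-/

set_option autoImplicit false

open MeasureTheory Set
open scoped InnerProductSpace ENNReal

namespace Pool.Agent.Results.MP_a38b17_an.FormBoundedComponents

open H772R2.NS.Pub
open Pool.Agent.TH301.EQ (wedge perp modulus)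
open Pool.Agent.R772.LV (curl cross)
open Pool.Agent.R462.HC (FormBdd)
open Pool.Agent.P8H36.EE (FormBounded IntegrableST)

/-- Let `u` be a weak solution of the Navier-Stokes equations in an open set `Ω ⊆ ℝ³` (no energy
inequality is assumed), with gradient `G` and force `f`, let `w` be a form bounded potential and `g`
an integrable function on `Ω × (0,T)`. The energy defect vanishes on `[0,T]` in each of the
following cases:
1. the bound of the triple products at two times;
2. direction fields, and the set `Ω` is covered by four sets `A i`: the fourth power of the velocity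
   is at most `g` in `A 0`, the components perpendicular to `d` are form bounded in `A 1`, the
   components of the velocity and of the vorticity along `d` are form bounded in `A 2`, and the
   square of the Lamb vector is at most `w g` in `A 3`.

Part 3: a potential which in each ball of radius `ρ(t)` is at most `K W + B(t)`, where `W` is form
bounded in the ball with the bound one (for example `W = 1 / (4 |x - y|²)`), is form bounded. -/
theorem result {Ω : Set R3} (hΩ : IsOpen Ω) {ν T : ℝ} (hν : 0 < ν) (hT : 0 < T)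
    {u : ℝ → L2 Ω R3} {G : ℝ → L2 Ω Mat} {f : ℝ → L2 Ω R3} (hu : IsWeakSolution Ω ν T u G f)
    {K p : ℝ} (hK : 0 ≤ K) (hp : 8 / 3 ≤ p) (hp4 : p ≤ 4)
    (h4 : p ≠ 8 / 3 → ∫⁻ t in Ioo 0 T, norm4 (u t) ^ p ≠ ⊤)
    {w g : ℝ → R3 → ℝ} (hg : IntegrableST Ω T g) :
    (FormBounded Ω T K w →
      (∀ᵐ t ∂(volume.restrict (Ioo 0 T)), ∀ᵐ s ∂(volume.restrict (Ioo 0 T)),
        ∀ᵐ x ∂(volume.restrict Ω), |⟪(G s).fn x, wedge ((u s).fn x) ((u t).fn x)⟫_ℝ|
          ≤ K * (modulus p u s t * (‖(G s).fn x‖ * (‖(u s).fn x‖ * ‖(u t).fn x‖))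
            + (‖(G s).fn x‖ ^ 2 + ‖(G t).fn x‖ ^ 2)
            + (w s x + w t x) * (‖(u s).fn x‖ ^ 2 + ‖(u t).fn x‖ ^ 2)) + (g s x + g t x)) →
      ∀ t ∈ Icc 0 T, energyDefect ν u G f t = 0) ∧
    (FormBounded Ω T K w → ∀ (d : ℝ → R3 → R3) (A : Fin 4 → Set R3),
      (∀ t ∈ Ioo 0 T, ∀ x ∈ Ω, ‖d t x‖ = 1) →
      (∀ s ∈ Ioo 0 T, ∀ t ∈ Ioo 0 T, ∀ x ∈ Ω, ‖d s x - d t x‖ ≤ K * modulus p u s t) →
      Ω ⊆ ⋃ i, A i →
      (∀ᵐ t ∂(volume.restrict (Ioo 0 T)), ∀ᵐ x ∂(volume.restrict Ω),
        (x ∈ A 0 → ‖(u t).fn x‖ ^ 4 ≤ g t x) ∧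
        (x ∈ A 1 → ‖perp (d t x) ((u t).fn x)‖ ^ 2 ≤ w t x) ∧
        (x ∈ A 2 → ⟪(u t).fn x, d t x⟫_ℝ ^ 2 ≤ w t x ∧
          |⟪curl ((G t).fn x), d t x⟫_ℝ| ≤ w t x) ∧
        (x ∈ A 3 → ‖cross (curl ((G t).fn x)) ((u t).fn x)‖ ^ 2 ≤ w t x * g t x)) →
      ∀ t ∈ Icc 0 T, energyDefect ν u G f t = 0) ∧
    ∀ B ρ : ℝ → ℝ, (∀ t, 0 ≤ B t) → (∀ t, 0 < ρ t) →
      IntegrableOn (fun t => B t + 1 / ρ t ^ 2) (Ioo 0 T) →
      (∀ᵐ t ∂(volume.restrict (Ioo 0 T)), AEMeasurable (w t) (volume.restrict Ω) ∧
        (∀ x, 0 ≤ w t x) ∧ ∀ y ∈ Ω, ∃ W : R3 → ℝ, FormBdd (Ω ∩ Metric.ball y (ρ t)) W ∧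
          ∀ᵐ x ∂(volume.restrict (Ω ∩ Metric.ball y (ρ t))), w t x ≤ K * W x + B t) →
      FormBounded Ω T K w :=
  ⟨fun hw h => Pool.Agent.P8H36.EE.pub_form hΩ hν.le hT hu hK hp hp4 h4 hw hg hK h,
    fun hw _ _ hd hd2 hA h =>
      Pool.Agent.P8H36.EE.pub_cover hΩ hν.le hT hu hK hp hp4 h4 hw hg hd hd2 hA h,
    fun _ _ hB hρ hint h => Pool.Agent.P8H36.EE.formBounded_of hΩ hK hB hρ hint h⟩

end Pool.Agent.Results.MP_a38b17_an.FormBoundedComponents
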