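import Pool.Agent.P8H36.EE.Sym

/-!
# Energy equality for weak solutions with a rotational symmetry

Let `Ω ⊆ ℝ³` be an open set which is invariant under a rotation about the third axis by an angle
which is not a multiple of `2π`, `r` the distance to the axis, and `u` a weak solution of the
Navier-Stokes equations in `Ω` (no energy inequality is assumed) which is invariant under the
rotation. Examples: solutions with a discrete rotational symmetry of any order `≥ 2`, and
axisymmetric solutions, with swirl.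

The horizontal part `u_h` of such a field (the part perpendicular to the axis) satisfies a Hardy
inequality, which fails for general fields and for the component along the axis:
`∫ |u_h|² / r² ≤ C ∫ |∇u|²`. By the pointwise two-time criterion of `FormBoundedComponents` this gives
the energy equality under scale invariant conditions with arbitrarily large constants `K` which are
not form bounded, `1 / r²` instead of `1 / |x - y|²`. The set `Ω` may be divided into three parts,
independent of time: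
* in the first part `u ∈ L⁴ L⁴`;
* in the second part there are horizontal unit vectors `d(t,x)` with
  `|d(s,x) - d(t,x)| ≤ K m(s,t)` such that `|u - (u·d) d|² ≤ K / r² + w`, where `w` is form bounded;
* in the third part `u₃² ≤ K / r² + w` and `|ω₃| ≤ K / r² + w`, `ω = curl u`.

For instance, an axisymmetric weak solution (with swirl) satisfies the energy equality if
`r |u_z| ≤ K` and `r |u_θ| ≤ K` near the axis and `u ∈ L⁴ L⁴` away from it, for any constant `K`;
there is no condition on the radial component near the axis (and it can be exchanged with `u_θ`).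

Proof of the Hardy inequality: for test fields `|φ(R_α x) - φ(x)| ≤ r ∫₀^α |∇φ(R_τ x)| dτ`, so that
`‖(φ ∘ R_α - φ) / r‖ ≤ α ‖∇φ‖` by Minkowski's inequality; this passes to the limit in
`H¹_{0,σ}(Ω)`, and for a symmetric field `|v(R_α x) - v(x)|² = (2 - 2 cos α) |v_h(x)|²`. In the triple
product `ω(s)·(u(s) × u(t))` each term contains a horizontal factor besides a small factor.
-/

set_option autoImplicit false

open MeasureTheory Set
open scoped InnerProductSpace ENNReal

namespace Pool.Agent.Results.MP_a38b17_an.RotationalSymmetry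

open H772R2.NS.Pub
open Pool.Agent.TH301.EQ (perp modulus)
open Pool.Agent.R772.LV (curl)
open Pool.Agent.P8H36.EE (FormBounded IntegrableST rotZ horSq RotInvariant)

/-- Let `Ω ⊆ ℝ³` be an open set invariant under the rotation by the angle `α`, `cos α ≠ 1`.
1. The Hardy inequality for invariant fields in `H¹_{0,σ}(Ω)`.
2. Energy equality for invariant weak solutions. -/
theorem result {Ω : Set R3} (hΩ : IsOpen Ω) {α : ℝ} (hα : 0 < α) (hcos : Real.cos α ≠ 1)
    (hinv : ∀ x, rotZ α x ∈ Ω ↔ x ∈ Ω) :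
    (∀ (v : L2 Ω R3) (z : L2 Ω Mat), (v, z) ∈ H1graph Ω → RotInvariant α v →
      ∫⁻ x in Ω, ENNReal.ofReal (horSq (v.fn x) / horSq x)
        ≤ ENNReal.ofReal (α ^ 2 / (2 - 2 * Real.cos α) * ‖z‖ ^ 2)) ∧
    ∀ (ν T : ℝ), 0 < ν → 0 < T →
      ∀ (u : ℝ → L2 Ω R3) (G : ℝ → L2 Ω Mat) (f : ℝ → L2 Ω R3), IsWeakSolution Ω ν T u G f →
      (∀ᵐ t ∂(volume.restrict (Ioo 0 T)), RotInvariant α (u t)) →
      ∀ K p : ℝ, 0 ≤ K → 8 / 3 ≤ p → p ≤ 4 →
      (p ≠ 8 / 3 → ∫⁻ t in Ioo 0 T, norm4 (u t) ^ p ≠ ⊤) →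
      ∀ (w g : ℝ → R3 → ℝ), FormBounded Ω T K w → IntegrableST Ω T g →
      ∀ (d : ℝ → R3 → R3) (A : Fin 3 → Set R3),
      (∀ t ∈ Ioo 0 T, ∀ x ∈ Ω, ‖d t x‖ = 1 ∧ ⟪d t x, e 2⟫_ℝ = 0) →
      (∀ s ∈ Ioo 0 T, ∀ t ∈ Ioo 0 T, ∀ x ∈ Ω, ‖d s x - d t x‖ ≤ K * modulus p u s t) →
      Ω ⊆ ⋃ i, A i →
      (∀ᵐ t ∂(volume.restrict (Ioo 0 T)), ∀ᵐ x ∂(volume.restrict Ω),
        (x ∈ A 0 → ‖(u t).fn x‖ ^ 4 ≤ g t x) ∧
        (x ∈ A 1 → ‖perp (d t x) ((u t).fn x)‖ ^ 2 ≤ K / horSq x + w t x) ∧
        (x ∈ A 2 → ⟪(u t).fn x, e 2⟫_ℝ ^ 2 ≤ K / horSq x + w t x ∧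
          |⟪curl ((G t).fn x), e 2⟫_ℝ| ≤ K / horSq x + w t x)) →
      ∀ t ∈ Icc 0 T, energyDefect ν u G f t = 0 :=
  ⟨fun _ _ h hs => Pool.Agent.P8H36.EE.pub_hardy hΩ hα hcos hinv h hs,
    fun _ _ hν hT _ _ _ hu hsym _ _ hK hp hp4 h4 _ _ hw hg _ _ hd hd2 hA h =>
      Pool.Agent.P8H36.EE.pub_sym hΩ hν.le hT hu hα hcos hinv hsym hK hp hp4 h4 hw hg hd hd2 hA h⟩

end Pool.Agent.Results.MP_a38b17_an.RotationalSymmetry
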