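import Pool.Agent.P8H70.TF.Str

/-!
# The energy defect from pairs of times, and one-sided criteria for the energy equality

Let `u` be a weak solution of the Navier-Stokes equations in an arbitrary open set `Ω ⊆ ℝ³` (no
energy inequality is assumed), and let `D` be its energy defect: the energy inequality between the
times `0` and `t` says `D(t) ≥ 0`, that between `s` and `t` says `D(s) ≤ D(t)`.

1. (Exact law) In the sense of distributions in `(0,T)`, tested with Lipschitz functions,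
   `D'(τ) = - (1/2) lim_{h → 0} (1/2h) ∫_{τ-h}^{τ+h} ∫_Ω δ·(∇u(τ) δ) dx dr`, `δ = u(r) - u(τ)`:
   the anomalous part of the energy balance of *every* weak solution is the mean work of the
   increments of the velocity *in time* against the strain. (No limit of a mollification in space
   is involved, and only the strain in the direction of the increments matters.)
2. (One-sided criteria) Let `β(r,τ) = ψ(r) + ψ(τ) + |r - τ| ψ(r) ψ(τ)` with an integrable `ψ ≥ 0`.
   (a) If `∫ δ·(∇u(τ) δ) ≤ β(r,τ)` for almost all `r`, `τ`, then `u` satisfies the strong energy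
   inequality: `D(s) ≤ D(t)` for almost every `s` and all `t ≥ s`.
   (b) If `∫ δ·(∇u(τ) δ) ≥ -β(r,τ)` for almost all `r`, `τ`, then no energy is lost: `D(t) ≤ D(s)`
   for all `s` and almost all `t > s`; so each solution with the energy inequality (at almost all
   times) satisfies the energy equality at almost all times.
   (c) If `∫ u(r)·(∇u(τ) u(r)) ≤ β(r,τ)` for almost all `r < τ`, then `D` is nondecreasing on
   `[0,T]`.
   (d) If `∫ u(r)·(∇u(τ) u(r)) ≥ -β(r,τ)` for almost all `r > τ`, then `D` is nonincreasing on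
   `[0,T]`; so if the energy inequality holds between `0` and `T`, then the energy equality holds at
   all times.
   (c) and (d) together give the energy equality for every weak solution.
3. (Strain along the increments) Let `g ∈ L^a(0,T; L^b(Ω))`, `2/a + 3/b = 2`. Then (a) holds if
   `δ·(∇u(τ) δ) ≤ (g(r) + g(τ)) |δ|²` for almost all `r, τ, x`, and (b) holds if
   `δ·(∇u(τ) δ) ≥ -(g(r) + g(τ)) |δ|²`: only the strain in the direction of the increments in time is
   bounded, and only from one side.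
4. (Rotation of the velocity) The conclusions of (c), (d) hold if at almost every point the velocity
   turns, from an earlier to a later time, in the positive sense about the vorticity `ω` of the
   earlier time (for (c)), of the later time (for (d)), or if
   `ω(s)·(u(earlier) × u(later)) ≥ -(K m(s,t) |∇u(s)| + g(s)) |u(s)| |u(t)|`, where
   `m(s,t) = |s - t|^{2/p - 1/2} + ‖u(s)‖₄^{p/2 - 2} + ‖u(t)‖₄^{p/2 - 2}`, `u ∈ L^p L⁴`,
   `8/3 ≤ p ≤ 4` (no condition for `p = 8/3`).

In the starting results of this type (`VelocityDirection`, and in `ComponentClasses`) the triple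
products are bounded from both sides and in both orders of the times.

Proof: the kinetic energy satisfies `k(τ) - k(τ-h) ≤ (u(τ) - u(τ-h), u(τ))`, and for almost every `τ`
the right hand side is the integral over `(τ-h, τ)` of the trilinear form and of the viscous and
force terms at the two times; divided by `h` it converges to `P(τ) - |Ω| ε(τ)`, and a one-sided bound
allows the passage to the limit in the integral over `τ`, by Fatou's lemma. No absolute continuity of
the energy is needed. (d) follows by the reversal of time. For the exact law the correlations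
`(u(τ+h) - u(τ-h), u(τ))` are tested with `θ(τ)`, and the trilinear form is symmetrised.
-/

set_option autoImplicit false

open MeasureTheory Set Filter Topology
open scoped InnerProductSpace ENNReal NNReal

namespace Pool.Agent.Results.MP_a38b17_an.TwoTimeFlux

open H772R2.NS.Pub
open Pool.Agent.TH301.EQ (wedge modulus)

/-- The matrix `a ⊗ a`, with the entries `a_i a_j`. -/
noncomputable def tensor (a : R3) : Mat :=
  WithLp.toLp 2 fun p : Fin 3 × Fin 3 => ⟪e p.1, a⟫_ℝ * ⟪e p.2, a⟫_ℝ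

/-- `∫_Ω v·(z v)`: the integral of `∑ v_i v_j z_ij`. -/
noncomputable def flux {Ω : Set R3} (v : R3 → R3) (z : L2 Ω Mat) : ℝ :=
  ∫ x in Ω, ⟪tensor (v x), z.fn x⟫_ℝ

/-- The bound `ψ(r) + ψ(τ) + |r - τ| ψ(r) ψ(τ)`. -/
def bound (ψ : ℝ → ℝ) (r τ : ℝ) : ℝ := ψ r + ψ τ + |r - τ| * (ψ r * ψ τ)

/-- The triple product `ω·(a × b)`, where `ω` is the axial vector of the matrix `z`; if `z` is the
Jacobian matrix of a field then `ω` is its curl. -/
noncomputable def turn (z : Mat) (a b : R3) : ℝ := -⟪z, wedge a b⟫_ℝ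

/-- `v ∈ L^a(0,T; L^b(Ω))`: `‖v(t)‖_{L^b(Ω)} ≤ B(t)` for almost every `t`, where
`B ∈ L^a(0,T)`. -/
def Mixed {E : Type} [NormedAddCommGroup E] (Ω : Set R3) (T : ℝ) (a b : ℝ≥0∞)
    (v : ℝ → R3 → E) : Prop :=
  ∃ B : ℝ → ℝ, MemLp B a (volume.restrict (Ioo 0 T)) ∧
    ∀ᵐ t ∂(volume.restrict (Ioo 0 T)), AEStronglyMeasurable (v t) (volume.restrict Ω) ∧
      eLpNorm (v t) b (volume.restrict Ω) ≤ ENNReal.ofReal (B t)

/-- Let `u` be a weak solution of the Navier-Stokes equations in an open set `Ω ⊆ ℝ³` (no energy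
inequality is assumed), with gradient `G`, force `f` and energy defect `D`.
1. The exact law for `D` in terms of the increments of `u` in time.
2. The one-sided criteria (a), (b) for the increments and (c), (d) for the trilinear form.
3. The strain along the increments is bounded from one side by a critical class.
4. The velocity turns in the positive sense about the vorticity, up to errors. -/
theorem result {Ω : Set R3} (hΩ : IsOpen Ω) {ν T : ℝ} (hν : 0 < ν) (hT : 0 < T)
    {u : ℝ → L2 Ω R3} {G : ℝ → L2 Ω Mat} {f : ℝ → L2 Ω R3} (hu : IsWeakSolution Ω ν T u G f) :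
    (∀ (θ : ℝ → ℝ) (C : ℝ≥0), LipschitzWith C θ → tsupport θ ⊆ Ioo 0 T →
      Tendsto (fun h : ℝ => ∫ τ in (0 : ℝ)..T, θ τ * ((1 / (2 * h)) * ∫ r in (τ - h)..(τ + h),
          flux (fun x => (u r).fn x - (u τ).fn x) (G τ)))
        (𝓝[>] 0) (𝓝 (2 * ∫ τ in (0 : ℝ)..T, deriv θ τ * energyDefect ν u G f τ))) ∧
    (∀ ψ : ℝ → ℝ, (∀ t, 0 ≤ ψ t) → IntegrableOn ψ (Ioo 0 T) →
      ((∀ᵐ τ ∂(volume.restrict (Ioo 0 T)), ∀ᵐ r ∂(volume.restrict (Ioo 0 T)),
          flux (fun x => (u r).fn x - (u τ).fn x) (G τ) ≤ bound ψ r τ) →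
        ∀ᵐ s ∂(volume.restrict (Ioo 0 T)), ∀ t ∈ Icc s T,
          energyDefect ν u G f s ≤ energyDefect ν u G f t) ∧
      ((∀ᵐ τ ∂(volume.restrict (Ioo 0 T)), ∀ᵐ r ∂(volume.restrict (Ioo 0 T)),
          -bound ψ r τ ≤ flux (fun x => (u r).fn x - (u τ).fn x) (G τ)) →
        (∀ s ∈ Ico 0 T, ∀ᵐ t ∂(volume.restrict (Ioo s T)),
          energyDefect ν u G f t ≤ energyDefect ν u G f s) ∧
        ((∀ᵐ t ∂(volume.restrict (Ioo 0 T)), 0 ≤ energyDefect ν u G f t) →
          ∀ᵐ t ∂(volume.restrict (Ioo 0 T)), energyDefect ν u G f t = 0)) ∧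
      ((∀ᵐ τ ∂(volume.restrict (Ioo 0 T)), ∀ᵐ r ∂(volume.restrict (Ioo 0 T)), r < τ →
          flux (u r).fn (G τ) ≤ bound ψ r τ) →
        ∀ s t, 0 ≤ s → s ≤ t → t ≤ T → energyDefect ν u G f s ≤ energyDefect ν u G f t) ∧
      ((∀ᵐ τ ∂(volume.restrict (Ioo 0 T)), ∀ᵐ r ∂(volume.restrict (Ioo 0 T)), τ < r →
          -bound ψ r τ ≤ flux (u r).fn (G τ)) →
        (∀ s t, 0 ≤ s → s ≤ t → t ≤ T → energyDefect ν u G f t ≤ energyDefect ν u G f s) ∧
        (0 ≤ energyDefect ν u G f T → ∀ t ∈ Icc 0 T, energyDefect ν u G f t = 0))) ∧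
    (∀ (a b : ℝ≥0∞) (g : ℝ → R3 → ℝ), 2 / a + 3 / b = 2 → Mixed Ω T a b g →
      ((∀ᵐ t ∂(volume.restrict (Ioo 0 T)), ∀ᵐ s ∂(volume.restrict (Ioo 0 T)),
          ∀ᵐ x ∂(volume.restrict Ω), ⟪tensor ((u s).fn x - (u t).fn x), (G t).fn x⟫_ℝ
            ≤ (g s x + g t x) * ‖(u s).fn x - (u t).fn x‖ ^ 2) →
        ∀ᵐ s ∂(volume.restrict (Ioo 0 T)), ∀ t ∈ Icc s T,
          energyDefect ν u G f s ≤ energyDefect ν u G f t) ∧
      ((∀ᵐ t ∂(volume.restrict (Ioo 0 T)), ∀ᵐ s ∂(volume.restrict (Ioo 0 T)),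
          ∀ᵐ x ∂(volume.restrict Ω), -((g s x + g t x) * ‖(u s).fn x - (u t).fn x‖ ^ 2)
            ≤ ⟪tensor ((u s).fn x - (u t).fn x), (G t).fn x⟫_ℝ) →
        (∀ s ∈ Ico 0 T, ∀ᵐ t ∂(volume.restrict (Ioo s T)),
          energyDefect ν u G f t ≤ energyDefect ν u G f s) ∧
        ((∀ᵐ t ∂(volume.restrict (Ioo 0 T)), 0 ≤ energyDefect ν u G f t) →
          ∀ᵐ t ∂(volume.restrict (Ioo 0 T)), energyDefect ν u G f t = 0)) ∧
      ∀ K p : ℝ, 0 ≤ K → 8 / 3 ≤ p → p ≤ 4 →
      (p ≠ 8 / 3 → ∫⁻ t in Ioo 0 T, norm4 (u t) ^ p ≠ ⊤) →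
      ((∀ᵐ t ∂(volume.restrict (Ioo 0 T)), ∀ᵐ s ∂(volume.restrict (Ioo 0 T)), s < t →
          ∀ᵐ x ∂(volume.restrict Ω),
            -((K * modulus p u s t * ‖(G s).fn x‖ + g s x) * (‖(u s).fn x‖ * ‖(u t).fn x‖))
              ≤ turn ((G s).fn x) ((u s).fn x) ((u t).fn x)) →
        ∀ s t, 0 ≤ s → s ≤ t → t ≤ T → energyDefect ν u G f s ≤ energyDefect ν u G f t) ∧
      ((∀ᵐ t ∂(volume.restrict (Ioo 0 T)), ∀ᵐ s ∂(volume.restrict (Ioo 0 T)), t < s →
          ∀ᵐ x ∂(volume.restrict Ω),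
            -((K * modulus p u s t * ‖(G s).fn x‖ + g s x) * (‖(u s).fn x‖ * ‖(u t).fn x‖))
              ≤ turn ((G s).fn x) ((u t).fn x) ((u s).fn x)) →
        (∀ s t, 0 ≤ s → s ≤ t → t ≤ T → energyDefect ν u G f t ≤ energyDefect ν u G f s) ∧
        (0 ≤ energyDefect ν u G f T → ∀ t ∈ Icc 0 T, energyDefect ν u G f t = 0))) :=
  ⟨fun _ _ hθ hs => Pool.Agent.P8H70.TF.pub_law hΩ hν.le hT hu hθ hs,
    fun _ h0 hi =>
      ⟨(Pool.Agent.P8H70.TF.pub_inc hΩ hν.le hT hu h0 hi).1,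
        (Pool.Agent.P8H70.TF.pub_inc hΩ hν.le hT hu h0 hi).2,
        fun h => Pool.Agent.P8H70.TF.pub_back hΩ hν.le hT hu h0 hi h,
        fun h => Pool.Agent.P8H70.TF.pub_forw hΩ hν.le hT hu h0 hi h⟩,
    fun _ _ _ hab hg =>
      ⟨(Pool.Agent.P8H70.TF.pub_strain hΩ hν.le hT hu hab hg).1,
        (Pool.Agent.P8H70.TF.pub_strain hΩ hν.le hT hu hab hg).2,
        fun _ _ hK hp hp4 h4 =>
        ⟨fun h => Pool.Agent.P8H70.TF.pub_rot_back hΩ hν.le hT hu hab hg hK hp hp4 h4 h,
          fun h => Pool.Agent.P8H70.TF.pub_rot_forw hΩ hν.le hT hu hab hg hK hp hp4 h4 h⟩⟩⟩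

end Pool.Agent.Results.MP_a38b17_an.TwoTimeFlux
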